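import Mathlib
import Pool.Agent.V8H67.Iso.Main

/-!
# The isomorphism problem for self-similar groups is undecidable

An automaton is given by its numbers of states and letters and its tables. The group `G(A)` of a
finite invertible automaton `A` is the group of permutations of the set of finite words generated
by the actions of the states of `A`. There is no algorithm which decides, given the codes of two
finite invertible automata `A` and `B`, whether `G(A)` and `G(B)` are isomorphic. This holds even
for one fixed automaton `B`, and then the isomorphism is not even semidecidable.

Idea of the proof. A counter machine with undecidable halting problem is simulated by an element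
`w` of a fixed automaton group `H`, depending on the input, such that `w` has finite order if and
only if the machine stops (file `Pool/Agent/Helper599/Core.lean`). New letters, fixed by the old
states, and one new state, which permutes the new letters cyclically and whose sections multiply
to `w`, give an automaton with group `H × C`, where `C` is cyclic, and `C` is infinite if and only
if `w` has infinite order. A fixed automaton has the group `H × ℤ`. As `H` is finitely generated,
`H × C` and `H × ℤ` are isomorphic if and only if `C` is infinite (count the homomorphisms to a
group of prime order).
-/

set_option autoImplicit false

namespace Pool.Agent.Results.MP_56d946_al.IsoUndecidable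

open Pool.Agent.V8H67.Iso

/-- Codes: number of states, number of letters, table of the pairs (next state, output letter). -/
abbrev Code : Type := ℕ × ℕ × List (List (ℕ × ℕ))

/-- (Negative answer to Q1) There is no computable function `f` on pairs of codes such that, for
all finite invertible automata `A` and `B`, `f (code of A, code of B) = true` if and only if the
groups `G(A)` and `G(B)` are isomorphic. Moreover there is a fixed automaton `B` such that no
recursively enumerable set of codes contains, among the codes of the finite invertible automata
`A`, exactly the codes of those with `G(A)` isomorphic to `G(B)`. -/
theorem result :
    (¬ ∃ f : Code × Code → Bool, Computable f ∧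
      ∀ A B : Automaton, f (A.code, B.code) = true ↔ Nonempty (A.group ≃* B.group)) ∧
    ∃ B : Automaton, ∀ P : Code → Prop, REPred P →
      ¬ ∀ A : Automaton, P A.code ↔ Nonempty (A.group ≃* B.group) := by
  obtain ⟨B, hB⟩ := main
  refine ⟨?_, B, hB⟩
  rintro ⟨f, hf, h⟩
  refine hB (fun c => f (c, B.code) = true) ?_ (fun A => h A B)
  have h1 : Computable (fun c : Code => f (c, B.code)) :=
    hf.comp (Computable.pair Computable.id (Computable.const _))
  exact (ComputablePred.computable_iff.2 ⟨_, h1, rfl⟩).to_re

end Pool.Agent.Results.MP_56d946_al.IsoUndecidable
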